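import Pool.Agent.Helper57.SC.StD
import Pool.Agent.Helper43.SC.Fr
import Pool.Agent.Helper57.PC.Final

set_option autoImplicit false

/-! Assembly of the sensitivity theorem. -/

namespace Pool.Agent.Helper57.SC

open Finset
open Pool.Agent.Helper7.SC (law ka Kz R X P wt St StD StA1 StA2 StA3 StA4 F Ecyc nuhat Hs rho sh)
open Pool.Agent.Helper43.SC (StC)
open Pool.Agent.Helper57.LJ (dig)
open Pool.Agent.Helper25.RC (repF)

/-- choice of the block length -/
lemma exists_q (b : ℕ) (hb : 2 ≤ b) (H : ℕ) (η : ℝ) (hη : 0 < η) : ∃ q : ℕ, 1 ≤ q ∧ 2 * H < b ^ q ∧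
    Real.exp (8 * Real.pi * H / ((b : ℝ) ^ q * η)) ≤ 2 := by
  obtain ⟨n, hn⟩ := exists_nat_ge (16 * Real.pi * H / η)
  refine ⟨max (2 * H + 1) (max n 1), ?_, ?_, ?_⟩
  · exact (le_max_right _ _).trans (le_max_right _ _)
  · have h1 : 2 * H + 1 ≤ max (2 * H + 1) (max n 1) := le_max_left _ _
    have h2 := Nat.lt_pow_self (n := max (2 * H + 1) (max n 1)) (show 1 < b by omega)
    omega
  · set q := max (2 * H + 1) (max n 1) with hq
    have h1 : n ≤ q := (le_max_left _ _).trans (le_max_right _ _)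
    have h2 : (n : ℝ) ≤ (b : ℝ) ^ q := by
      have h3 := Nat.lt_pow_self (n := q) (show 1 < b by omega)
      have : n ≤ b ^ q := by omega
      exact_mod_cast this
    have hbq : (0 : ℝ) < (b : ℝ) ^ q := by
      have : (0 : ℝ) < b := by
        have : 0 < b := by omega
        exact_mod_cast this
      positivity
    have h4 : 8 * Real.pi * H / ((b : ℝ) ^ q * η) ≤ 1 / 2 := by
      rw [div_le_iff₀ (by positivity)]
      have h5 := hn.trans h2
      rw [div_le_iff₀ hη] at h5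
      linarith
    have h6 : Real.exp (1 / 2) ≤ 2 := by
      have h7 : Real.exp (1 / 2) ^ 2 ≤ 2 ^ 2 := by
        rw [← Real.exp_nat_mul]
        have := Real.exp_one_lt_d9
        norm_num
        linarith
      exact le_of_sq_le_sq h7 (by norm_num)
    exact (Real.exp_le_exp.2 h4).trans h6

/-- Sensitivity theorem, finite form. -/
theorem assembly (hC : StC) (hA1 : StA1) (hA2 : StA2) (hA3 : StA3) (hA4 : StA4)
    (b : ℕ) (hb : 2 ≤ b) (ε δ : ℝ) (hε : 0 < ε) (hδ : 0 < δ) :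
    ∃ c : ℝ, 0 < c ∧ ∀ (K : ℕ) (s : ℝ), 1 ≤ s → ∀ (S D : Finset ℕ) (f : ℕ → ℕ) (J : ℕ → ℕ → ℕ),
      S ⊆ range (b ^ K) → D ⊆ range (b ^ K) → δ * (b : ℝ) ^ K ≤ #D →
      (∀ n ∈ D, f n ≤ n ∧ f n ∈ S ∧ n - f n ∈ S) →
      ∑ i ∈ range K, ∑ j ∈ range K,
        (#{n ∈ range (b ^ K) | J i n ≠ J i ((n + b ^ j) % b ^ K)} : ℝ) ≤ s * K * (b : ℝ) ^ K →
      (1 / b + ε) * K * #D ≤ ∑ n ∈ D, (#{i ∈ range K | dig b i (f n) = J i n} : ℝ) →
      c * (b : ℝ) ^ K * Real.exp (c * K / s) ≤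
        ∑ n ∈ range (2 * b ^ K), ((repF S n : ℕ) : ℝ) ^ 2 := by
  classical
  obtain ⟨H, ε₁, c₁, hH, hε₁, hc₁, hc₁', hbridge⟩ := hC b hb ε δ hε hδ
  obtain ⟨ε₀, hε₀e⟩ : ∃ ε₀ : ℝ, ε₀ = min ε₁ 1 := ⟨_, rfl⟩
  have hε₀ : 0 < ε₀ := by rw [hε₀e]; exact lt_min hε₁ one_pos
  have hε₀1 : ε₀ ≤ 1 := by rw [hε₀e]; exact min_le_right _ _
  have hε₀2 : ε₀ ≤ ε₁ := by rw [hε₀e]; exact min_le_left _ _
  obtain ⟨η, hη⟩ : ∃ η : ℝ, η = ε₀ / 16 := ⟨_, rfl⟩
  have hη0 : 0 < η := by rw [hη]; positivity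
  obtain ⟨q, hq1, hq2, hq3⟩ := exists_q b hb H η hη0
  have hq0 : (0 : ℝ) < q := by
    have : 0 < q := by omega
    exact_mod_cast this
  obtain ⟨K₀, hK₀⟩ := exists_nat_ge (4 * q / ε + 4 * q)
  obtain ⟨c₂, hc₂⟩ : ∃ c₂ : ℝ, c₂ = η * ε₀ * c₁ / (32 * q) := ⟨_, rfl⟩
  have hc₂0 : 0 < c₂ := by rw [hc₂]; positivity
  obtain ⟨c, hc⟩ : ∃ c : ℝ, c = min (min (ε₀ / 2) c₂) (min (δ / 3) (1 / (K₀ + 1))) := ⟨_, rfl⟩
  have hc0 : 0 < c := by
    rw [hc]
    exact lt_min (lt_min (by positivity) hc₂0) (lt_min (by positivity) (by positivity))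
  have hcε : c ≤ ε₀ / 2 := by rw [hc]; exact (min_le_left _ _).trans (min_le_left _ _)
  have hcc₂ : c ≤ c₂ := by rw [hc]; exact (min_le_left _ _).trans (min_le_right _ _)
  have hcδ : c ≤ δ / 3 := by rw [hc]; exact (min_le_right _ _).trans (min_le_left _ _)
  have hcK : c ≤ 1 / (K₀ + 1) := by rw [hc]; exact (min_le_right _ _).trans (min_le_right _ _)
  refine ⟨c, hc0, fun K s hs S D f J hS hD hDc hf hsens hhit => ?_⟩
  have hs0 : 0 < s := by linarith
  have hx0 : (0 : ℝ) < (b : ℝ) ^ K := by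
    have : (0 : ℝ) < b := by
      have : 0 < b := by omega
      exact_mod_cast this
    positivity
  rcases lt_or_ge K K₀ with hlt | hge
  · -- small K
    have h1 : δ * (b : ℝ) ^ K ≤ ∑ n ∈ range (2 * b ^ K), ((repF S n : ℕ) : ℝ) ^ 2 := by
      refine hDc.trans ?_
      have h2 : (#D : ℝ) = ∑ _n ∈ D, (1 : ℝ) := by rw [Finset.sum_const, nsmul_eq_mul, mul_one]
      rw [h2]
      have hDs : D ⊆ range (2 * b ^ K) := hD.trans (Finset.range_subset_range.2 (by omega))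
      refine le_trans (Finset.sum_le_sum fun n hn => ?_)
        (Finset.sum_le_sum_of_subset_of_nonneg hDs fun _ _ _ => sq_nonneg _)
      have h2 : 0 < repF S n := by
        refine Finset.card_pos.2 ⟨(f n, n - f n), ?_⟩
        refine mem_filter.2 ⟨mem_product.2 ⟨(hf n hn).2.1, (hf n hn).2.2⟩, ?_⟩
        exact Nat.add_sub_cancel' (hf n hn).1
      have h3 : (1 : ℝ) ≤ ((repF S n : ℕ) : ℝ) := by exact_mod_cast h2
      nlinarith
    refine le_trans ?_ h1
    have h4 : c * K / s ≤ 1 := by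
      rw [div_le_one hs0]
      have h5 : c * K ≤ 1 / (K₀ + 1) * (K₀ + 1) := by
        refine mul_le_mul hcK ?_ (Nat.cast_nonneg _) (by positivity)
        have : (K : ℝ) ≤ K₀ := by exact_mod_cast hlt.le
        linarith
      rw [one_div_mul_cancel (by positivity)] at h5
      linarith
    have h6 : Real.exp (c * K / s) ≤ 3 := by
      refine (Real.exp_le_exp.2 h4).trans ?_
      have := Real.exp_one_lt_d9
      linarith
    calc c * (b : ℝ) ^ K * Real.exp (c * K / s) ≤ c * (b : ℝ) ^ K * 3 :=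
          mul_le_mul_of_nonneg_left h6 (by positivity)
      _ ≤ δ / 3 * (b : ℝ) ^ K * 3 := by
          refine mul_le_mul_of_nonneg_right ?_ (by norm_num)
          exact mul_le_mul_of_nonneg_right hcδ hx0.le
      _ = δ * (b : ℝ) ^ K := by ring
  · have hKr : 4 * q / ε + 4 * q ≤ (K : ℝ) := hK₀.trans (by exact_mod_cast hge)
    have hdiv : 0 ≤ 4 * (q : ℝ) / ε := by positivity
    have hK4 : 4 * (q : ℝ) ≤ ε * K := by
      have h1 : 4 * (q : ℝ) / ε ≤ K := by linarith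
      rw [div_le_iff₀ hε] at h1
      linarith
    have hK4' : 4 * q ≤ K := by
      have : 4 * (q : ℝ) ≤ K := by linarith
      exact_mod_cast this
    obtain ⟨r, hr, hcor⟩ := hbridge q K hq1 hK4 s hs D f J hD hDc hsens hhit
    obtain ⟨m, hm⟩ : ∃ m : ℕ, m = (K - r) / q := ⟨_, rfl⟩
    rw [← hm] at hcor
    have hmq : m * q ≤ K - r := by rw [hm]; exact Nat.div_mul_le_self _ _
    have hrm : r + m * q ≤ K := by omega
    have hmq2 : K ≤ 2 * (m * q) := by
      have h1 : K - r < (m + 1) * q := by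
        rw [hm]
        have := Nat.lt_mul_div_succ (K - r) (show 0 < q by omega)
        rw [mul_comm]
        exact this
      have h2 : (m + 1) * q = m * q + q := by ring
      omega
    have hm0 : 0 < m := by
      rcases Nat.eq_zero_or_pos m with h | h
      · rw [h, zero_mul, mul_zero] at hmq2
        omega
      · exact h
    obtain ⟨p, hp⟩ : ∃ p : ℝ, p = c₁ / s := ⟨_, rfl⟩
    rw [← hp] at hcor
    have hp0 : 0 < p := by rw [hp]; positivity
    have hp1 : p ≤ 1 / 2 := by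
      rw [hp, div_le_iff₀ hs0]
      nlinarith
    obtain ⟨Δ, hΔ⟩ : ∃ Δ : ℝ, Δ = η * p / 8 := ⟨_, rfl⟩
    have hΔ0 : 0 < Δ := by rw [hΔ]; positivity
    have hη1 : η ≤ 1 := by rw [hη]; linarith
    have hΔη : Δ ≤ η / 16 := by
      rw [hΔ]
      nlinarith
    have hΔ1 : Δ ≤ 1 / 2 := by linarith
    have hηe : η = 8 * Δ / p := by
      rw [hΔ]
      field_simp
    have hcor' : ε₀ * (m * (b : ℝ) ^ K) ≤
        ∑ n ∈ D, ∑ n' ∈ D, law b q r m K p ((n' : ZMod (b ^ K)) - n) *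
        ∑ B : Fin m, ka H (((f n : ℝ) - f n') / (b : ℝ) ^ (r + (B + 1) * q)) :=
      le_trans (mul_le_mul_of_nonneg_right hε₀2 (by positivity)) hcor
    have h1 := stD b q r m K H p Δ ε₀ hb hH hm0 hrm hΔ0 hΔ1 hp0.le (by linarith) hε₀ S D f hS hD hf
      hcor'
    have h2 := hA2 b q r m K H p Δ hb hrm hH S
    have h3 := hA1 b q r m K H p Δ η hb hrm hH hq2 hΔ0 hp0 hp1 hηe hη1 hq3 S
    have h4 := hA3 (b ^ K) (by positivity) S
    have h5 := hA4 (b ^ K) S hS
    rw [← h4, ← h2] at h3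
    push_cast at h3
    have h6 : X b q r m K H p Δ S ≤ (1 + 4 * Δ * η) ^ m * Ecyc (b ^ K) S := by
      have h7 : (b : ℝ) ^ K * X b q r m K H p Δ S ≤
          (b : ℝ) ^ K * ((1 + 4 * Δ * η) ^ m * Ecyc (b ^ K) S) := by
        refine h3.trans (le_of_eq ?_)
        ring
      exact le_of_mul_le_mul_left h7 hx0
    obtain ⟨E, hE⟩ : ∃ E : ℝ, E = ∑ n ∈ range (2 * b ^ K), ((repF S n : ℕ) : ℝ) ^ 2 := ⟨_, rfl⟩
    have hE0 : 0 ≤ E := by rw [hE]; exact Finset.sum_nonneg fun _ _ => sq_nonneg _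
    have h5' : Ecyc (b ^ K) S ≤ 2 * E := by rw [hE]; exact h5
    rw [← hE]
    have h8 : (1 + 4 * Δ * η) ^ m ≤ Real.exp (4 * Δ * η * m) := by
      have h9 : 1 + 4 * Δ * η ≤ Real.exp (4 * Δ * η) := by
        have := Real.add_one_le_exp (4 * Δ * η)
        linarith
      refine (pow_le_pow_left₀ (by positivity) h9 m).trans (le_of_eq ?_)
      rw [← Real.exp_nat_mul]
      congr 1
      ring
    have h10 : ε₀ * (b : ℝ) ^ K * Real.exp ((Δ * ε₀ - Δ ^ 2) * m) ≤
        Real.exp (4 * Δ * η * m) * (2 * E) := by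
      refine h1.trans (h6.trans ?_)
      refine (mul_le_mul_of_nonneg_left h5' (by positivity)).trans ?_
      exact mul_le_mul_of_nonneg_right h8 (by positivity)
    have h11 : c * K / s ≤ (Δ * ε₀ - Δ ^ 2) * m - 4 * Δ * η * m := by
      have hm0' : (0 : ℝ) < m := by exact_mod_cast hm0
      have h12 : Δ * ε₀ / 2 * m ≤ (Δ * ε₀ - Δ ^ 2) * m - 4 * Δ * η * m := by
        have h13 : Δ * ε₀ / 2 ≤ Δ * ε₀ - Δ ^ 2 - 4 * Δ * η := by
          have h14 : Δ ^ 2 ≤ Δ * (ε₀ / 4) := by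
            rw [sq]
            refine mul_le_mul_of_nonneg_left ?_ hΔ0.le
            rw [hη] at hΔη
            linarith
          have h15 : 4 * Δ * η = Δ * (ε₀ / 4) := by
            rw [hη]
            ring
          rw [h15]
          linarith
        calc Δ * ε₀ / 2 * m ≤ (Δ * ε₀ - Δ ^ 2 - 4 * Δ * η) * m :=
              mul_le_mul_of_nonneg_right h13 hm0'.le
          _ = _ := by ring
      refine le_trans ?_ h12
      have h16 : (K : ℝ) ≤ 2 * (m * q) := by exact_mod_cast hmq2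
      have h17 : Δ * ε₀ / 2 * m = η * ε₀ * c₁ / 16 * m / s := by
        rw [hΔ, hp]
        ring
      rw [h17]
      refine (div_le_div_iff_of_pos_right hs0).2 ?_
      calc c * K ≤ c₂ * (2 * (m * q)) := mul_le_mul hcc₂ h16 (Nat.cast_nonneg _) hc₂0.le
        _ = η * ε₀ * c₁ / 16 * m := by
            rw [hc₂]
            field_simp
            ring
    have h18 : ε₀ / 2 * (b : ℝ) ^ K * Real.exp ((Δ * ε₀ - Δ ^ 2) * m - 4 * Δ * η * m) ≤ E := by
      rw [Real.exp_sub, ← mul_div_assoc, div_le_iff₀ (Real.exp_pos _)]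
      linarith
    refine le_trans ?_ h18
    refine mul_le_mul ?_ (Real.exp_le_exp.2 h11) (Real.exp_pos _).le (by positivity)
    exact mul_le_mul_of_nonneg_right hcε hx0.le

end Pool.Agent.Helper57.SC
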