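import Pool.Agent.Helper7.SC.Frames
import Pool.Agent.Helper99.SC.Four

set_option autoImplicit false

/-! Jensen step for the sensitivity theorem. -/

namespace Pool.Agent.Helper57.SC

open Finset
open Pool.Agent.Helper7.SC (law ka Kz R X P wt St StD)
open Pool.Agent.Helper99.SC (stL)

lemma exp_sub_sq_le {y : ℝ} (h : |y| ≤ 1 / 2) : Real.exp (y - y ^ 2) ≤ 1 + y := by
  obtain ⟨h1, h2⟩ := abs_le.1 h
  rcases le_or_gt 0 y with hy | hy
  · have h3 : 0 ≤ y - y ^ 2 := by nlinarith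
    have h4 : y - y ^ 2 ≤ 1 := by nlinarith
    have h5 := Real.abs_exp_sub_one_sub_id_le (x := y - y ^ 2) (by rw [abs_of_nonneg h3]; exact h4)
    have h6 := (abs_le.1 h5).2
    have h7 : (y - y ^ 2) ^ 2 ≤ y ^ 2 := by
      have : y - y ^ 2 ≤ y := by nlinarith
      exact pow_le_pow_left₀ h3 this 2
    linarith
  · obtain ⟨a, ha⟩ : ∃ a : ℝ, a = -y := ⟨_, rfl⟩
    have hy' : y = -a := by rw [ha, neg_neg]
    have ha0 : 0 < a := by linarith
    have ha1 : a ≤ 1 / 2 := by linarith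
    subst hy'
    have h3 : 0 ≤ a + a ^ 2 := by positivity
    have h4 := Real.quadratic_le_exp_of_nonneg h3
    have h5 : -a - (-a) ^ 2 = -(a + a ^ 2) := by ring
    rw [h5, Real.exp_neg, inv_le_comm₀ (Real.exp_pos _) (by linarith)]
    refine le_trans ?_ h4
    rw [inv_le_iff_one_le_mul₀ (by linarith)]
    have h6 : (1 + (a + a ^ 2) + (a + a ^ 2) ^ 2 / 2) * (1 + -a) =
        1 + a ^ 2 * (1 - a - a ^ 2 - a ^ 3) / 2 := by ring
    rw [h6]
    have h7 : 0 ≤ 1 - a - a ^ 2 - a ^ 3 := by nlinarith [pow_pos ha0 2, pow_pos ha0 3]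
    have h8 : 0 ≤ a ^ 2 * (1 - a - a ^ 2 - a ^ 3) / 2 := by positivity
    linarith

lemma card_Kz (H : ℕ) : #(Kz H) = 2 * H := by
  unfold Kz
  rw [Finset.card_erase_of_mem (by rw [Finset.mem_Icc]; constructor <;> simp), Int.card_Icc]
  omega

lemma abs_ka_le {H : ℕ} (hH : 1 ≤ H) (y : ℝ) : |ka H y| ≤ 1 := by
  have hH0 : (0 : ℝ) < 2 * H := by
    have : (0 : ℝ) < H := by exact_mod_cast hH
    linarith
  unfold ka
  rw [abs_mul, abs_of_pos (by positivity), one_div, inv_mul_le_iff₀ hH0, mul_one]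
  refine (Finset.abs_sum_le_sum_abs _ _).trans ?_
  refine (Finset.sum_le_sum fun k _ => Real.abs_cos_le_one _).trans (le_of_eq ?_)
  rw [Finset.sum_const, card_Kz, nsmul_eq_mul, mul_one]
  push_cast
  ring

lemma law_nonneg (b q r m K : ℕ) {p : ℝ} (hp : 0 ≤ p) (hp1 : p ≤ 1) (t : ZMod (b ^ K)) :
    0 ≤ law b q r m K p t := by
  unfold law
  refine Finset.sum_nonneg fun ω _ => ?_
  split_ifs
  · unfold P
    refine Finset.prod_nonneg fun B _ => ?_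
    cases ω B with
    | none => simp only [wt]; linarith
    | some t => simp only [wt]; positivity
  · exact le_rfl

lemma R_ge (b q r m : ℕ) {H : ℕ} (hH : 1 ≤ H) {Δ : ℝ} (hΔ : 0 < Δ) (hΔ1 : Δ ≤ 1 / 2) (d : ℤ) :
    Real.exp (Δ * ∑ B : Fin m, ka H ((d : ℝ) / (b : ℝ) ^ (r + (B + 1) * q)) - Δ ^ 2 * m) ≤
      R b q r m H Δ d := by
  have e1 : Δ * ∑ B : Fin m, ka H ((d : ℝ) / (b : ℝ) ^ (r + (B + 1) * q)) - Δ ^ 2 * m =
      ∑ B : Fin m, (Δ * ka H ((d : ℝ) / (b : ℝ) ^ (r + (B + 1) * q)) - Δ ^ 2) := by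
    rw [Finset.sum_sub_distrib, Finset.mul_sum, Finset.sum_const, Finset.card_univ,
      Fintype.card_fin, nsmul_eq_mul]
    ring
  rw [e1, Real.exp_sum]
  unfold R
  refine Finset.prod_le_prod (fun _ _ => (Real.exp_pos _).le) fun B _ => ?_
  set y := ka H ((d : ℝ) / (b : ℝ) ^ (r + (B + 1) * q)) with hy
  have hy1 : |y| ≤ 1 := abs_ka_le hH _
  have h1 : |Δ * y| ≤ 1 / 2 := by
    rw [abs_mul, abs_of_pos hΔ]
    nlinarith [abs_nonneg y]
  refine le_trans (Real.exp_le_exp.2 ?_) (exp_sub_sq_le h1)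
  have h2 : y ^ 2 ≤ 1 := by
    rw [← sq_abs]
    exact pow_le_one₀ (abs_nonneg _) hy1
  nlinarith [sq_nonneg Δ]

lemma R_pos (b q r m : ℕ) {H : ℕ} (hH : 1 ≤ H) {Δ : ℝ} (hΔ : 0 < Δ) (hΔ1 : Δ ≤ 1 / 2) (d : ℤ) :
    0 ≤ R b q r m H Δ d := (Real.exp_pos _).le.trans (R_ge b q r m hH hΔ hΔ1 d)

theorem stD : StD := by
  classical
  intro b q r m K H p Δ ε₀ hb hH hm hrm hΔ hΔ1 hp hp1 hε₀ S D f hS hD hf hcor
  have hx0 : 0 < b ^ K := by positivity
  have : NeZero (b ^ K) := ⟨hx0.ne'⟩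
  have hm0 : (0 : ℝ) < m := by exact_mod_cast hm
  obtain ⟨x, hx⟩ : ∃ x : ℝ, x = (b : ℝ) ^ K := ⟨_, rfl⟩
  have hxr : 0 < x := by rw [hx]; positivity
  rw [← hx] at hcor ⊢
  set W : ℕ → ℕ → ℝ := fun n n' => law b q r m K p ((n' : ZMod (b ^ K)) - n) with hW
  set s : ℕ → ℕ → ℝ := fun n n' =>
    ∑ B : Fin m, ka H (((f n : ℝ) - f n') / (b : ℝ) ^ (r + (B + 1) * q)) with hs
  have hW0 : ∀ n n', 0 ≤ W n n' := fun n n' => law_nonneg b q r m K hp hp1 _
  have hs1 : ∀ n n', s n n' ≤ m := by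
    intro n n'
    have : s n n' ≤ ∑ _B : Fin m, (1 : ℝ) :=
      Finset.sum_le_sum fun B _ => (abs_le.1 (abs_ka_le hH _)).2
    rw [Finset.sum_const, Finset.card_univ, Fintype.card_fin, nsmul_eq_mul, mul_one] at this
    exact this
  have hcor' : ε₀ * (m * x) ≤ ∑ n ∈ D, ∑ n' ∈ D, W n n' * s n n' := hcor
  set N : ℝ := ∑ n ∈ D, ∑ n' ∈ D, W n n' with hN
  have hN1 : ε₀ * x ≤ N := by
    have h1 : ∑ n ∈ D, ∑ n' ∈ D, W n n' * s n n' ≤ ∑ n ∈ D, ∑ n' ∈ D, W n n' * m :=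
      Finset.sum_le_sum fun n _ => Finset.sum_le_sum fun n' _ =>
        mul_le_mul_of_nonneg_left (hs1 n n') (hW0 n n')
    have h2 : ∑ n ∈ D, ∑ n' ∈ D, W n n' * m = N * m := by
      rw [hN, Finset.sum_mul]
      refine Finset.sum_congr rfl fun n _ => ?_
      rw [Finset.sum_mul]
    have h3 : (ε₀ * x) * m ≤ N * m := by
      rw [← h2]
      refine le_trans (le_of_eq ?_) (hcor'.trans h1)
      ring
    exact le_of_mul_le_mul_right h3 hm0
  have hrow : ∀ n, ∑ n' ∈ D, W n n' ≤ 1 := by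
    intro n
    have hinj : Set.InjOn (fun n' : ℕ => (n' : ZMod (b ^ K)) - n) (D : Set ℕ) := by
      intro n₁ h₁ n₂ h₂ he
      simp only [sub_left_inj] at he
      have h3 := (ZMod.natCast_eq_natCast_iff' _ _ _).1 he
      rwa [Nat.mod_eq_of_lt (mem_range.1 (hD h₁)), Nat.mod_eq_of_lt (mem_range.1 (hD h₂))] at h3
    have h1 : ∑ n' ∈ D, W n n' = ∑ t ∈ D.image (fun n' : ℕ => (n' : ZMod (b ^ K)) - n),
        law b q r m K p t := by
      rw [Finset.sum_image hinj]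
    have h2 := (stL b q r m K p hb hp hp1).2
    rw [h1, ← h2]
    exact Finset.sum_le_sum_of_subset_of_nonneg (Finset.subset_univ _)
      fun t _ _ => law_nonneg b q r m K hp hp1 t
  have hN2 : N ≤ x := by
    have h1 : N ≤ ∑ _n ∈ D, (1 : ℝ) := Finset.sum_le_sum fun n _ => hrow n
    rw [Finset.sum_const, nsmul_eq_mul, mul_one] at h1
    refine h1.trans ?_
    have h2 := Finset.card_le_card hD
    rw [card_range] at h2
    have h3 : (#D : ℝ) ≤ ((b ^ K : ℕ) : ℝ) := by exact_mod_cast h2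
    rw [hx]
    push_cast at h3
    exact h3
  -- lower bound of X
  have hXge : ∑ n ∈ D, ∑ n' ∈ D, W n n' * R b q r m H Δ ((f n : ℤ) - f n') ≤
      X b q r m K H p Δ S := by
    set T : ℕ × ℕ × ℕ × ℕ → ℝ := fun y => law b q r m K p
      ((y.2.2.1 : ZMod (b ^ K)) + y.2.2.2 - y.1 - y.2.1) *
        R b q r m H Δ ((y.1 : ℤ) - y.2.2.1) with hT
    have hT0 : ∀ y, 0 ≤ T y := fun y =>
      mul_nonneg (law_nonneg b q r m K hp hp1 _) (R_pos b q r m hH hΔ hΔ1 _)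
    have e1 : X b q r m K H p Δ S = ∑ y ∈ S ×ˢ S ×ˢ S ×ˢ S, T y := by
      unfold X
      simp_rw [Finset.sum_product, hT]
    have hinj : Set.InjOn (fun u : ℕ × ℕ => (f u.1, u.1 - f u.1, f u.2, u.2 - f u.2))
        ((D ×ˢ D : Finset (ℕ × ℕ)) : Set (ℕ × ℕ)) := by
      rintro ⟨n₁, n₁'⟩ h₁ ⟨n₂, n₂'⟩ h₂ he
      simp only [Prod.mk.injEq] at he
      rw [Finset.mem_coe, mem_product] at h₁ h₂
      have a1 := (hf _ h₁.1).1
      have a2 := (hf _ h₁.2).1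
      have a3 := (hf _ h₂.1).1
      have a4 := (hf _ h₂.2).1
      simp only at a1 a2 a3 a4
      ext <;> simp only <;> omega
    rw [e1, ← Finset.sum_product']
    have e2 : ∀ u ∈ D ×ˢ D, W u.1 u.2 * R b q r m H Δ ((f u.1 : ℤ) - f u.2) =
        T (f u.1, u.1 - f u.1, f u.2, u.2 - f u.2) := by
      intro u hu
      rw [mem_product] at hu
      simp only [hT, hW]
      congr 2
      have a1 := (hf _ hu.1).1
      have a2 := (hf _ hu.2).1
      rw [Nat.cast_sub a1, Nat.cast_sub a2]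
      ring
    rw [Finset.sum_congr rfl e2, ← Finset.sum_image (f := T) hinj]
    refine Finset.sum_le_sum_of_subset_of_nonneg ?_ fun y _ _ => hT0 y
    intro y hy
    obtain ⟨u, hu, rfl⟩ := Finset.mem_image.1 hy
    rw [mem_product] at hu
    simp only [mem_product]
    exact ⟨(hf _ hu.1).2.1, (hf _ hu.1).2.2, (hf _ hu.2).2.1, (hf _ hu.2).2.2⟩
  refine le_trans ?_ hXge
  set y₀ : ℝ := Δ * ε₀ * m with hy₀
  have hpt : ∀ n n', Real.exp ((Δ * ε₀ - Δ ^ 2) * m) * (W n n' * (1 + (Δ * s n n' - y₀))) ≤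
      W n n' * R b q r m H Δ ((f n : ℤ) - f n') := by
    intro n n'
    have h1 := R_ge b q r m hH hΔ hΔ1 ((f n : ℤ) - f n')
    push_cast at h1
    have h2 : Real.exp ((Δ * ε₀ - Δ ^ 2) * m) * (1 + (Δ * s n n' - y₀)) ≤
        Real.exp (Δ * s n n' - Δ ^ 2 * m) := by
      have h3 : Δ * s n n' - Δ ^ 2 * m = (Δ * ε₀ - Δ ^ 2) * m + (Δ * s n n' - y₀) := by
        rw [hy₀]
        ring
      rw [h3, Real.exp_add]
      refine mul_le_mul_of_nonneg_left ?_ (Real.exp_pos _).le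
      have := Real.add_one_le_exp (Δ * s n n' - y₀)
      linarith
    calc Real.exp ((Δ * ε₀ - Δ ^ 2) * m) * (W n n' * (1 + (Δ * s n n' - y₀))) =
          W n n' * (Real.exp ((Δ * ε₀ - Δ ^ 2) * m) * (1 + (Δ * s n n' - y₀))) := by ring
      _ ≤ W n n' * R b q r m H Δ ((f n : ℤ) - f n') :=
        mul_le_mul_of_nonneg_left (h2.trans h1) (hW0 n n')
  refine le_trans ?_ (Finset.sum_le_sum fun n _ => Finset.sum_le_sum fun n' _ => hpt n n')
  have e3 : ∑ n ∈ D, ∑ n' ∈ D, Real.exp ((Δ * ε₀ - Δ ^ 2) * m) *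
      (W n n' * (1 + (Δ * s n n' - y₀))) = Real.exp ((Δ * ε₀ - Δ ^ 2) * m) *
      (N * (1 - y₀) + Δ * ∑ n ∈ D, ∑ n' ∈ D, W n n' * s n n') := by
    simp_rw [← Finset.mul_sum]
    congr 1
    rw [hN, Finset.sum_mul, Finset.mul_sum, ← Finset.sum_add_distrib]
    refine Finset.sum_congr rfl fun n _ => ?_
    rw [Finset.sum_mul, Finset.mul_sum, ← Finset.sum_add_distrib]
    refine Finset.sum_congr rfl fun n' _ => ?_
    ring
  rw [e3, mul_comm (ε₀ * x)]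
  refine mul_le_mul_of_nonneg_left ?_ (Real.exp_pos _).le
  have h1 : Δ * (ε₀ * (m * x)) ≤ Δ * ∑ n ∈ D, ∑ n' ∈ D, W n n' * s n n' :=
    mul_le_mul_of_nonneg_left hcor' hΔ.le
  have h2 : N * (1 - y₀) + Δ * (ε₀ * (m * x)) = N + Δ * ε₀ * m * (x - N) := by
    rw [hy₀]
    ring
  have h3 : 0 ≤ Δ * ε₀ * m * (x - N) := mul_nonneg (by positivity) (sub_nonneg.2 hN2)
  linarith

end Pool.Agent.Helper57.SC
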